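import Pool.Agent.LE.StmtsZ
import Pool.Agent.Helper54_BED.Flat
import Pool.Agent.Helper96_LEC.Sym

/-!
# The effective band edge: exact asymptotics, both edges
-/

set_option autoImplicit false

open MeasureTheory ProbabilityTheory Function Filter

open scoped ENNReal BigOperators Topology NNReal

noncomputable section

namespace Pool.Agent.LE.H93Z

open Pool.Agent.Anderson Pool.Agent.Loc Pool.Agent.Mob Pool.Agent.Helper54.Bal Pool.Agent.BED

/-- the phase diagram at weak disorder -/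
theorem edge_sharp (qms : QmsStmt) (wkd : WkdStmt) : ∀ (d : ℕ) (ε : ℝ), 3 ≤ d → 0 < ε → ε < 1 →
    ∃ c C : ℝ, 0 < c ∧ 0 < C ∧
    ∀ σ t : ℝ, σ ≠ 0 → |σ| ≤ c → 1 / σ ^ 2 ≤ t → σ ^ 2 * growth d t * Real.log t ≤ c →
    ∃ Es : ℝ, |Es - 2 * d| ≤ C * σ ^ 2 ∧
      (∀ E g : ℝ, Es + 1 / t ≤ |E| → LyaAt d σ E g → c * Real.sqrt (min (|E| - Es) 1) ≤ g) ∧
      (∀ E g : ℝ, Es + 1 / t ≤ |E| → |E| ≤ Es + c → LyaAt d σ E g →
        (1 - ε) * Real.sqrt (|E| - Es) ≤ g ∧ g ≤ (1 + ε) * Real.sqrt (|E| - Es)) ∧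
      (∀ E g : ℝ, |(|E| - Es)| ≤ |σ| → LyaAt d σ E g → g ≤ C * (|(|E| - Es)| + 1 / t) ^ c) ∧
      ∀ E g : ℝ, |E| ≤ Es → LyaAt d σ E g → g ≤ C * |σ| ^ c := by
  intro d ε hd3 hε hε1
  have hd : 1 ≤ d := by omega
  have hdR : (3 : ℝ) ≤ d := by exact_mod_cast hd3
  obtain ⟨c, C, hc, hC, h⟩ := qms d ε hd3 hε hε1
  obtain ⟨C₂, hC₂, hw⟩ := wkd d hd
  obtain ⟨a, ha⟩ : ∃ a : ℝ, a = 1 / ((d : ℝ) * (d + 4)) := ⟨_, rfl⟩
  have ha0 : 0 < a := by rw [ha]; positivity
  obtain ⟨c', hc'⟩ : ∃ c' : ℝ, c' = min (min c a) (min (1 / (2 * C + 2)) (1 / 4)) := ⟨_, rfl⟩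
  have hc'0 : 0 < c' := by rw [hc']; positivity
  have hc1 : c' ≤ c := by rw [hc']; exact (min_le_left _ _).trans (min_le_left _ _)
  have hc2 : c' ≤ a := by rw [hc']; exact (min_le_left _ _).trans (min_le_right _ _)
  have hc3 : (2 * C + 2) * c' ≤ 1 := by
    have : c' ≤ 1 / (2 * C + 2) := by
      rw [hc']; exact (min_le_right _ _).trans (min_le_left _ _)
    rw [le_div_iff₀ (by positivity)] at this
    linarith
  have hc4 : c' ≤ 1 / 4 := by rw [hc']; exact (min_le_right _ _).trans (min_le_right _ _)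
  refine ⟨c', C + C₂ + C * (2 * C + 2), hc'0, by positivity, ?_⟩
  intro σ t hσ hσc hσt2 hu
  have hσ0 : 0 < |σ| := abs_pos.2 hσ
  have hσ1 : |σ| ≤ 1 := by linarith
  have hσsq : σ ^ 2 ≤ |σ| := by
    rw [← sq_abs, pow_two]
    have := mul_le_mul_of_nonneg_left hσ1 hσ0.le
    linarith
  have hσsqp : 0 < σ ^ 2 := by positivity
  have hσt : 1 / |σ| ≤ t := (one_div_le_one_div_of_le hσsqp hσsq).trans hσt2
  have ht0 : 0 < t := lt_of_lt_of_le (by positivity) hσt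
  have h1t0 : 0 < 1 / t := by positivity
  have h1t : 1 / t ≤ |σ| := by
    rw [div_le_iff₀ ht0]
    rw [div_le_iff₀ hσ0] at hσt
    linarith
  have ht1 : 1 ≤ t := by
    refine le_trans ?_ hσt
    rw [le_div_iff₀ hσ0]
    linarith
  have hσsq0 := sq_nonneg σ
  have h1tσ : 1 / t ≤ σ ^ 2 := by
    rw [div_le_iff₀ ht0]
    rw [div_le_iff₀ hσsqp] at hσt2
    linarith
  obtain ⟨Es, hEs, h1, h1s, h2⟩ := h σ t hσ (hσc.trans hc1) hσt (hu.trans hc1)
  have hEs2 : |Es - 2 * d| ≤ 2 * C * σ ^ 2 := by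
    refine hEs.trans ?_
    have := mul_le_mul_of_nonneg_left (by linarith : σ ^ 2 + 1 / t ≤ 2 * σ ^ 2) hC.le
    linarith
  have hEs1 : |Es - 2 * d| ≤ |σ| := by
    refine hEs2.trans ?_
    have h0 : σ ^ 2 = |σ| * |σ| := by rw [← sq_abs, pow_two]
    rw [h0, ← mul_assoc]
    have h3 := mul_le_mul_of_nonneg_left hσc (by positivity : (0 : ℝ) ≤ 2 * C)
    have h4 : 2 * C * |σ| ≤ 1 := by linarith
    have := mul_le_mul_of_nonneg_right h4 hσ0.le
    linarith
  -- symmetry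
  have key : ∀ (E g : ℝ), LyaAt d σ E g → LyaAt d σ |E| g := by
    intro E g hg
    rcases abs_choice E with he | he
    · rw [he]; exact hg
    · rw [he]; exact H96C.lya_negE hg
  have hmono : ∀ x : ℝ, 0 < x → x ≤ 1 → x ^ c ≤ x ^ c' := fun x hx hx1 =>
    Real.rpow_le_rpow_of_exponent_ge hx hx1 hc1
  have hup : ∀ E g : ℝ, |(|E| - Es)| ≤ |σ| → LyaAt d σ E g →
      g ≤ C * (|(|E| - Es)| + 1 / t) ^ c' := by
    intro E g hE hg
    refine (h2 |E| g hE (key E g hg)).trans ?_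
    have hx0 : 0 < |(|E| - Es)| + 1 / t := by
      have := abs_nonneg (|E| - Es)
      linarith
    exact mul_le_mul_of_nonneg_left (hmono _ hx0 (by linarith)) hC.le
  refine ⟨Es, ?_, ?_, ?_, ?_, ?_⟩
  · refine hEs2.trans ?_
    refine mul_le_mul_of_nonneg_right ?_ hσsq0
    have : 0 ≤ C * (2 * C) := by positivity
    linarith
  · intro E g hE hg
    refine le_trans ?_ (h1 |E| g hE (key E g hg))
    exact mul_le_mul_of_nonneg_right hc1 (Real.sqrt_nonneg _)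
  · intro E g hE hE2 hg
    exact h1s |E| g hE (by linarith) (key E g hg)
  · intro E g hE hg
    refine (hup E g hE hg).trans ?_
    have hx0 : 0 ≤ |(|E| - Es)| + 1 / t := by positivity
    refine mul_le_mul_of_nonneg_right ?_ (Real.rpow_nonneg hx0 _)
    have : 0 ≤ C * (2 * C + 2) := by positivity
    linarith
  · intro E g hE hg
    have hσc'0 : 0 ≤ |σ| ^ c' := Real.rpow_nonneg (abs_nonneg _) _
    by_cases h3 : |E| ≤ 2 * d
    · refine (hw σ E g hσ hσ1 h3 hg).trans ?_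
      rw [← ha]
      have h4 : |σ| ^ a ≤ |σ| ^ c' := Real.rpow_le_rpow_of_exponent_ge hσ0 hσ1 hc2
      calc C₂ * |σ| ^ a ≤ C₂ * |σ| ^ c' := mul_le_mul_of_nonneg_left h4 hC₂.le
        _ ≤ (C + C₂ + C * (2 * C + 2)) * |σ| ^ c' := by
            refine mul_le_mul_of_nonneg_right ?_ hσc'0
            have : 0 ≤ C * (2 * C + 2) := by positivity
            linarith
    · push Not at h3
      have h4 := (abs_le.1 (le_refl |Es - 2 * d|)).2
      have h6 : |(|E| - Es)| ≤ |σ| := by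
        rw [abs_sub_comm, abs_of_nonneg (by linarith)]
        linarith
      refine (hup E g h6 hg).trans ?_
      have hx0 : 0 ≤ |(|E| - Es)| + 1 / t := by positivity
      have h7 : |(|E| - Es)| + 1 / t ≤ 2 * |σ| := by linarith
      have h8 : (|(|E| - Es)| + 1 / t) ^ c' ≤ (2 * |σ|) ^ c' :=
        Real.rpow_le_rpow hx0 h7 hc'0.le
      have h9 : (2 * |σ|) ^ c' ≤ 2 * |σ| ^ c' := by
        rw [Real.mul_rpow (by norm_num) hσ0.le]
        refine mul_le_mul_of_nonneg_right ?_ hσc'0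
        calc (2 : ℝ) ^ c' ≤ 2 ^ (1 : ℝ) :=
              Real.rpow_le_rpow_of_exponent_le (by norm_num) (by linarith)
          _ = 2 := Real.rpow_one 2
      calc C * (|(|E| - Es)| + 1 / t) ^ c' ≤ C * (2 * |σ| ^ c') :=
            mul_le_mul_of_nonneg_left (h8.trans h9) hC.le
        _ = (C * 2) * |σ| ^ c' := by ring
        _ ≤ (C + C₂ + C * (2 * C + 2)) * |σ| ^ c' := by
            refine mul_le_mul_of_nonneg_right ?_ hσc'0
            have : 0 ≤ C * (2 * C) := by positivity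
            linarith

end Pool.Agent.LE.H93Z
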