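import Pool.Agent.Helper93_LEW.AllY
import Pool.Agent.Helper93_LSH.QMS
import Pool.Agent.Helper93_LSH.Edge2
import Pool.Agent.Helper60_LSH.CDE
import Pool.Agent.Helper42_LSH.CDP
import Pool.Agent.Helper3_LSH.CTS
import Pool.Agent.Helper56_LSH.ELE
import Pool.Agent.Helper81_LSH.FLE
import Pool.Agent.Helper56_LSH.LCI
import Pool.Agent.Helper65_LSH.LCP
import Pool.Agent.Helper28_LSH.LCS
import Pool.Agent.Helper72_LSH.MTR
import Pool.Agent.Helper19_LSH.PCR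
import Pool.Agent.Helper60_LSH.SGX
import Pool.Agent.Helper34_LSH.SLC
import Pool.Agent.Helper24_LSH.SMS
import Pool.Agent.Helper42_LSH.UPX
import Pool.Agent.Helper54_LE.FMN
import Pool.Agent.Helper65_LEC.UPE

/-!
# Exact asymptotics above the effective band edge: all modules
-/

set_option autoImplicit false

open MeasureTheory ProbabilityTheory

noncomputable section

namespace Pool.Agent.LE.H93Z

open Pool.Agent.Anderson Pool.Agent.Loc Pool.Agent.Helper54.Bal Pool.Agent.Mob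
  Pool.Agent.LE.H93C Pool.Agent.LE.H93W Pool.Agent.BED

theorem eleT : EleStmt := H56Z.ele

theorem lciT : LciStmt := H56Z.lci eleT

theorem slcT : SlcStmt := H34Z.slc eleT lciT

theorem lcpT : LcpStmt := H65Z.lcp lciT H19Z.pcr

theorem lcsT : LcsStmt := H28Z.lcs slcT lcpT

theorem cdeT : CdeStmt := H60Z.cde lcsT

theorem ctsT : CtsStmt := H3Z.cts

theorem cdpT : CdpStmt := H42Z.cdp cdeT ctsT

theorem fleT : FleStmt := H81Z.fle H59W.cdf

theorem sgxT : SgxStmt := H60Z.sgx ctsT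

theorem smsT : SmsStmt := H24Z.sms H96.smpT

theorem mtrT : MtrStmt := H72Z.mtr H54W.vtr H54.fmn

theorem upxT : UpxStmt := H42Z.upx mtrT H65C.upe

theorem qmsT : QmsStmt := qms crtT oscBT H42W.nux infT fleT sgxT smsT cdpT upxT

theorem edgeSharpT : ∀ (d : ℕ) (ε : ℝ), 3 ≤ d → 0 < ε → ε < 1 →
    ∃ c C : ℝ, 0 < c ∧ 0 < C ∧
    ∀ σ t : ℝ, σ ≠ 0 → |σ| ≤ c → 1 / σ ^ 2 ≤ t → σ ^ 2 * growth d t * Real.log t ≤ c →
    ∃ Es : ℝ, |Es - 2 * d| ≤ C * σ ^ 2 ∧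
      (∀ E g : ℝ, Es + 1 / t ≤ |E| → LyaAt d σ E g → c * Real.sqrt (min (|E| - Es) 1) ≤ g) ∧
      (∀ E g : ℝ, Es + 1 / t ≤ |E| → |E| ≤ Es + c → LyaAt d σ E g →
        (1 - ε) * Real.sqrt (|E| - Es) ≤ g ∧ g ≤ (1 + ε) * Real.sqrt (|E| - Es)) ∧
      (∀ E g : ℝ, |(|E| - Es)| ≤ |σ| → LyaAt d σ E g → g ≤ C * (|(|E| - Es)| + 1 / t) ^ c) ∧
      ∀ E g : ℝ, |E| ≤ Es → LyaAt d σ E g → g ≤ C * |σ| ^ c :=
  edge_sharp qmsT wkdT

end Pool.Agent.LE.H93Z
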